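import Pool.Agent.Helper76.CV.Goals

/-!
# Project CV (MP_eec6f5_gt): packet XB
-/

set_option autoImplicit false

open scoped ContDiff
open Filter Topology

namespace Pool.Agent.Helper13.CV.XB

open Pool.Agent.Helper76.CV

theorem t (hZP : Pool.Agent.Helper76.CV.ZP) (hKAP : Pool.Agent.Helper76.CV.KAP) :
    Pool.Agent.Helper76.CV.XB := by
  intro r D p hG hp
  obtain ⟨-, hZ, -⟩ := hZP
  obtain ⟨-, hk01, hk1, -⟩ := hKAP
  have hH : H D p = 0 := hp
  have h1 : Real.cos p.2 - Real.exp (-(13 / 2 * U D p.1)) = 0 := congrArg Prod.fst hH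
  have h2 : p.2 - kap p.2 * ZA D p.1 + kap (-p.2) * ZB D p.1 = 0 := congrArg Prod.snd hH
  have hcos : Real.cos p.2 = Real.exp (-(13 / 2 * U D p.1)) := by linarith
  have hU : 0 ≤ U D p.1 := by
    have h3 : Real.exp (-(13 / 2 * U D p.1)) ≤ 1 := by
      rw [← hcos]
      exact Real.cos_le_one _
    rw [Real.exp_le_one_iff] at h3
    linarith
  have hUd : U D p.1 = 1 - ‖p.1.2‖ ^ 2 - D.C p.1.1 := rfl
  have hC := hG.nC p.1.1
  have hn2 : ‖p.1.2‖ ^ 2 ≤ 1 := by linarith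
  have hsq : 0 ≤ ‖p.1.2‖ ^ 2 := sq_nonneg _
  have hn : ‖p.1.2‖ ≤ 1 := by
    have := abs_le_one_iff_mul_self_le_one.2 (by rw [← sq]; exact hn2 : ‖p.1.2‖ * ‖p.1.2‖ ≤ 1)
    rwa [abs_of_nonneg (norm_nonneg _)] at this
  have hA : 0 ≤ ZA D p.1 ∧ ZA D p.1 ≤ 52 / 25 := hZ _
  have hB : 0 ≤ ZB D p.1 ∧ ZB D p.1 ≤ 52 / 25 := by
    have hz := hZ (qB D p.1)
    have b0 := hG.β0 p.1.1
    have b1 := hG.β1 p.1.1
    have e : ZB D p.1 = D.β p.1.1 * Z (qB D p.1) := rfl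
    rw [e]
    refine ⟨mul_nonneg b0 hz.1, ?_⟩
    calc D.β p.1.1 * Z (qB D p.1) ≤ 1 * Z (qB D p.1) := mul_le_mul_of_nonneg_right b1 hz.1
      _ = Z (qB D p.1) := one_mul _
      _ ≤ 52 / 25 := hz.2
  have habs : |p.2| ≤ 52 / 25 := by
    rcases le_total 0 p.2 with hs | hs
    · rw [abs_of_nonneg hs]
      rw [hk1 _ hs, one_mul] at h2
      have h3 := mul_nonneg (hk01 (-p.2)).1 hB.1
      linarith [hA.2]
    · rw [abs_of_nonpos hs]
      rw [hk1 (-p.2) (by linarith), one_mul] at h2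
      have h3 := mul_nonneg (hk01 p.2).1 hA.1
      linarith [hB.2]
  refine ⟨hcos, hU, hn, by linarith, habs, ?_⟩
  by_contra hlt
  rw [not_lt] at hlt
  have h3 : Real.cos |p.2| ≤ 0 := by
    apply Real.cos_nonpos_of_pi_div_two_le_of_le hlt
    have := Real.pi_gt_three
    linarith
  rw [Real.cos_abs, hcos] at h3
  exact absurd (Real.exp_pos _) (not_lt.2 h3)

end Pool.Agent.Helper13.CV.XB
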